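import Mathlib
import Pool.Agent.V11217.Trapezoid

/-!
A simplicial refinement of a trapezoid in which the minimal faces over two extreme points
share a vertex.
-/

namespace Pool.Agent.Results.MP_b5b962_gt.SharedVertex

open Set Pool.Agent.V11217.Refine Pool.Agent.V11217

/-- The vertex `e i` of the simplex with vertices `e` has a positive barycentric coefficient at
the point `x`. -/
def PosCoeff {E : Type} [AddCommGroup E] [Module ℝ E] {n : ℕ} (e : Fin n → E) (i : Fin n)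
    (x : E) : Prop :=
  ∃ w : Fin n → ℝ, (∀ j, 0 ≤ w j) ∧ ∑ j, w j = 1 ∧ x = ∑ j, w j • e j ∧ 0 < w i

/-- The minimal face containing `S` of the simplex with vertices `e`. -/
def minFace {E : Type} [AddCommGroup E] [Module ℝ E] {n : ℕ} (e : Fin n → E) (S : Set E) :
    Set E :=
  convexHull ℝ (e '' {i | ∃ x ∈ S, PosCoeff e i x})

/-- The preimage of a point under a partial map. -/
def fibre {E F : Type} [AddCommGroup E] [Module ℝ E] [AddCommGroup F] [Module ℝ F]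
    {X : Set E} {Y : Set F} (f : PartialMap X Y) (y : F) : Set E :=
  {x | ∃ h : x ∈ f.dom, f.toFun ⟨x, h⟩ = y}

theorem result : ∃ (C : Set (ℝ × ℝ)) (T : Set (Fin 5 → ℝ)) (f : PartialMap T C)
    (g : PartialMap (Effects T) (Effects C)) (e : Fin 5 → (Fin 5 → ℝ)) (a b : ℝ × ℝ),
    IsPolytope C ∧ ¬ IsSimplex C ∧ IsRefinement T C f g ∧
    AffineIndependent ℝ e ∧ T = convexHull ℝ (Set.range e) ∧
    a ∈ C.extremePoints ℝ ∧ b ∈ C.extremePoints ℝ ∧ a ≠ b ∧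
    (∃ i, (∃ x ∈ fibre f a, PosCoeff e i x) ∧ ∃ y ∈ fibre f b, PosCoeff e i y) ∧
    (minFace e (fibre f a) ∩ minFace e (fibre f b)).Nonempty := by
  obtain ⟨φ, g, href, hdom, hval⟩ := Trapezoid.refinement
  let e : Fin 5 → (Fin 5 → ℝ) := fun i => Pi.single i 1
  have hD3 : (![2 / 3, 0, 0, 1 / 3, 0] : Fin 5 → ℝ) ∈ Trapezoid.D := by
    refine ⟨?_, ?_⟩
    · rw [Trapezoid.mem_T]
      refine ⟨⟨?_, ?_, ?_, ?_, ?_⟩, ?_⟩
      · change (0 : ℝ) ≤ 2 / 3; norm_num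
      · change (0 : ℝ) ≤ 0; norm_num
      · change (0 : ℝ) ≤ 0; norm_num
      · change (0 : ℝ) ≤ 1 / 3; norm_num
      · change (0 : ℝ) ≤ 0; norm_num
      · change (2 / 3 + 0 + 0 + 1 / 3 + 0 : ℝ) = 1; norm_num
    · change (2 / 3 : ℝ) = 2 * (1 / 3 + 0); norm_num
  have hD4 : (![2 / 3, 0, 0, 0, 1 / 3] : Fin 5 → ℝ) ∈ Trapezoid.D := by
    refine ⟨?_, ?_⟩
    · rw [Trapezoid.mem_T]
      refine ⟨⟨?_, ?_, ?_, ?_, ?_⟩, ?_⟩
      · change (0 : ℝ) ≤ 2 / 3; norm_num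
      · change (0 : ℝ) ≤ 0; norm_num
      · change (0 : ℝ) ≤ 0; norm_num
      · change (0 : ℝ) ≤ 0; norm_num
      · change (0 : ℝ) ≤ 1 / 3; norm_num
      · change (2 / 3 + 0 + 0 + 0 + 1 / 3 : ℝ) = 1; norm_num
    · change (2 / 3 : ℝ) = 2 * (0 + 1 / 3); norm_num
  have hf3 : (![2 / 3, 0, 0, 1 / 3, 0] : Fin 5 → ℝ) ∈ fibre φ (2, 1) := by
    refine ⟨by rw [hdom]; exact hD3, ?_⟩
    rw [hval]
    refine Prod.ext ?_ ?_
    · change (3 * 0 + 6 * (1 / 3) + 3 * 0 : ℝ) = 2; norm_num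
    · change (3 * (1 / 3) + 3 * 0 : ℝ) = 1; norm_num
  have hf4 : (![2 / 3, 0, 0, 0, 1 / 3] : Fin 5 → ℝ) ∈ fibre φ (1, 1) := by
    refine ⟨by rw [hdom]; exact hD4, ?_⟩
    rw [hval]
    refine Prod.ext ?_ ?_
    · change (3 * 0 + 6 * 0 + 3 * (1 / 3) : ℝ) = 1; norm_num
    · change (3 * 0 + 3 * (1 / 3) : ℝ) = 1; norm_num
  have hpos : ∀ x ∈ Trapezoid.D, 0 < x 0 → PosCoeff e 0 x := by
    intro x hx h0
    refine ⟨x, hx.1.1, hx.1.2, ?_, h0⟩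
    ext j
    simp [e, Finset.sum_apply, Pi.single_apply]
  have h3 : PosCoeff e 0 (![2 / 3, 0, 0, 1 / 3, 0] : Fin 5 → ℝ) :=
    hpos _ hD3 (by change (0 : ℝ) < 2 / 3; norm_num)
  have h4 : PosCoeff e 0 (![2 / 3, 0, 0, 0, 1 / 3] : Fin 5 → ℝ) :=
    hpos _ hD4 (by change (0 : ℝ) < 2 / 3; norm_num)
  refine ⟨Trapezoid.C, Trapezoid.T, φ, g, e, (2, 1), (1, 1), Trapezoid.polytope_C,
    Trapezoid.not_simplex_C, href, ?_, ?_, Trapezoid.ext3, Trapezoid.ext4, ?_,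
    ⟨0, ⟨_, hf3, h3⟩, ⟨_, hf4, h4⟩⟩, ⟨e 0, ?_, ?_⟩⟩
  · exact (Pi.linearIndependent_single_one (Fin 5) ℝ).affineIndependent
  · exact (convexHull_rangle_single_eq_stdSimplex ℝ (Fin 5)).symm
  · simp
  · exact subset_convexHull ℝ _ ⟨0, ⟨_, hf3, h3⟩, rfl⟩
  · exact subset_convexHull ℝ _ ⟨0, ⟨_, hf4, h4⟩, rfl⟩

end Pool.Agent.Results.MP_b5b962_gt.SharedVertex
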